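import Pool.Agent.H13.Nim

set_option autoImplicit false

namespace Pool.Agent.Results.MP_68925f_co.Squares

open Pool.Agent.H13.Nim

/-- There is exactly one operation obeying the rules of the nim product, and its sequence of
squares is not 2-regular. -/
theorem result : (∃! op : ℕ → ℕ → ℕ, IsNimMul op) ∧
    ∀ op : ℕ → ℕ → ℕ, IsNimMul op → ¬ TwoRegular (fun n => (op n n : ℤ)) :=
  ⟨existsUnique_nimMul, fun _ H => squares_not_twoRegular H⟩

end Pool.Agent.Results.MP_68925f_co.Squares
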