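import Pool.Agent.H13.Nim

set_option autoImplicit false

namespace Pool.Agent.Results.MP_68925f_co.Table

open Pool.Agent.H13.Nim

/-- There is exactly one operation obeying the rules of the nim product, and its multiplication
table is not a 2-regular array. -/
theorem result : (∃! op : ℕ → ℕ → ℕ, IsNimMul op) ∧
    ∀ op : ℕ → ℕ → ℕ, IsNimMul op → ¬ TwoRegularArray (fun m n => (op m n : ℤ)) :=
  ⟨existsUnique_nimMul, fun _ H => table_not_twoRegular H⟩

end Pool.Agent.Results.MP_68925f_co.Table
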